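import Mathlib
import Pool.Agent.NearOne652.Hyp3

set_option autoImplicit false

open Finset

namespace Pool.Agent.Results.MP_5d33ca_ag.HyperlogsNearZero

/-- **No linear relations of bounded height between hyperlogarithm values near zero** (periods of
mixed Tate motives). For a word `w` in the letters `none` (the form `dx/x`) and `some i` (the form
`T_i dx/(1 - T_i x)`, `T_i = t_i / D`), not ending in `none`, the iterated integral from `0` to `x`
along `w` is the sum of the series `∑ cw T w n x^n`, where `cw` is given by the recursion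
`cw (none :: w) n = cw w n / n` and `cw (some i :: w) n = (∑_{m<n} T_i^(n-m) cw w m) / n`. At
`x = 1/H` with `H` explicitly large no nontrivial linear combination over `K` of these values,
over all words of length at most `δ` (the empty word gives the number one), with algebraic integer
coefficients whose conjugates have sum of absolute values at most `B`, is zero. -/
theorem result (K : Type) [Field K] [NumberField K] (σ : K →+* ℂ)
    (k δ D H m : ℕ) (B : ℝ) (hD : D ≠ 0) (hDB : (D : ℝ) ≤ B)
    (t : Fin k → K) (ht0 : ∀ i, t i ≠ 0) (htinj : Function.Injective t)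
    (hti : ∀ i, IsIntegral ℤ (t i)) (htB : ∀ (φ : K →+* ℂ) i, ‖φ (t i)‖ ≤ B)
    (c : List (Option (Fin k)) →₀ K) (hc0 : c ≠ 0)
    (hcw : ∀ w ∈ c.support, w.length ≤ δ ∧ w.getLast? ≠ some none)
    (hci : ∀ w, IsIntegral ℤ (c w))
    (hcB : ∀ φ : K →+* ℂ, ∑ w ∈ c.support, ‖φ (c w)‖ ≤ B)
    (hm : m = (k + 1) ^ δ)
    (hH : (2 * (m.factorial : ℝ) ^ δ * B ^ (2 * m)) ^ (Module.finrank ℚ K + 1) < (H : ℝ)) :
    ∑ w ∈ c.support, σ (c w) *
      ∑' n : ℕ, σ (Pool.Agent.NearOne652.cw (fun i => t i / D) w n) / (H : ℂ) ^ n ≠ 0 :=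
  Pool.Agent.NearOne652.hyperC K σ k δ D H m B hD hDB t ht0 htinj hti htB c hc0 hcw hci hcB hm hH

end Pool.Agent.Results.MP_5d33ca_ag.HyperlogsNearZero
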